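import Pool.Agent.Helper3.AK.Goals3

/-!
# Packet AK-CT: the probability of `Mev` for a fixed `y`
-/

namespace Pool.Agent.Helper3.AK

open Equiv

namespace CT74

variable {n r k K : ℕ}

/-! ### Locality -/

theorem zpos_congr (x : Fin K → Alt n) (u u' : ℕ → Perm (Fin n)) (g : ℕ → Letter K) (t : ℕ)
    (h : ∀ s < t, u s = u' s) : zpos x u g t = zpos x u' g t := by
  induction t with
  | zero => rfl
  | succ t ih =>
    simp only [zpos]
    rw [ih (fun s hs => h s (by omega)), h t (Nat.lt_succ_self t)]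

theorem tail_congr (x : Fin K → Alt n) (u u' : ℕ → Perm (Fin n)) (g : ℕ → Letter K) (t : ℕ)
    (h : ∀ s ≤ t, u s = u' s) (p : Fin n) : tail x u g t p = tail x u' g t p := by
  unfold tail
  rw [zpos_congr x u u' g (t + 1) (fun s hs => h s (by omega)),
    zpos_congr x u u' g t (fun s hs => h s (by omega)), h t le_rfl]

theorem rep_congr (x : Fin K → Alt n) (u u' : ℕ → Perm (Fin n)) (g : ℕ → Letter K) (t : ℕ)
    (h : ∀ s ≤ t, u s = u' s) (c : Pts n r) : rep x u g c t = rep x u' g c t := by
  unfold rep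
  have h1 : ∀ q : Fin r × Bool, (∃ t' < t, ∃ q' : Fin r × Bool, (g t').1 = (g t).1 ∧
      tail x u g t' (c q') = tail x u g t (c q)) ↔ (∃ t' < t, ∃ q' : Fin r × Bool,
      (g t').1 = (g t).1 ∧ tail x u' g t' (c q') = tail x u' g t (c q)) := by
    intro q
    have h2 : ∀ t' < t, ∀ q' : Fin r × Bool, tail x u g t' (c q') = tail x u' g t' (c q') :=
      fun t' ht' q' => tail_congr x u u' g t' (fun s hs => h s (by omega)) _
    constructor
    · rintro ⟨t', ht', q', h3, h4⟩
      exact ⟨t', ht', q', h3, by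
        rw [← h2 t' ht', ← tail_congr x u u' g t h]; exact h4⟩
    · rintro ⟨t', ht', q', h3, h4⟩
      exact ⟨t', ht', q', h3, by
        rw [h2 t' ht', tail_congr x u u' g t h]; exact h4⟩
  exact Nat.card_congr (Equiv.subtypeEquivRight h1)

theorem rep_le (x : Fin K → Alt n) (u : ℕ → Perm (Fin n)) (g : ℕ → Letter K) (t : ℕ)
    (c : Pts n r) : rep x u g c t ≤ 2 * r := by
  classical
  unfold rep
  rw [Nat.card_eq_fintype_card]
  refine (Fintype.card_subtype_le _).trans ?_
  rw [Fintype.card_prod, Fintype.card_fin, Fintype.card_bool]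
  omega

/-! ### The chain lemma -/

theorem extP_snoc_lt {m : ℕ} (u : Fin m → Perm (Fin n)) (g : Perm (Fin n)) {s : ℕ}
    (hs : s < m) : extP (Fin.snoc (α := fun _ => Perm (Fin n)) u g) s = extP u s := by
  unfold extP
  rw [dif_pos (show s < m + 1 by omega), dif_pos hs]
  exact Fin.snoc_castSucc (α := fun _ => Perm (Fin n)) g u ⟨s, hs⟩

theorem extP_snoc_eq {m : ℕ} (u : Fin m → Perm (Fin n)) (g : Perm (Fin n)) :
    extP (Fin.snoc (α := fun _ => Perm (Fin n)) u g) m = g := by
  unfold extP
  rw [dif_pos (Nat.lt_succ_self m)]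
  exact Fin.snoc_last (α := fun _ => Perm (Fin n)) g u

theorem chain (κ : ℕ → Perm (Fin n) → ℝ) (E : ℕ → (ℕ → Perm (Fin n)) → ℝ)
    (hE0 : ∀ t u, 0 ≤ E t u)
    (hloc : ∀ t (u u' : ℕ → Perm (Fin n)), (∀ s ≤ t, u s = u' s) → E t u = E t u') (p : ℝ)
    (hp : 0 ≤ p) (m : ℕ) (h0 : ∀ t < m, ∀ g, 0 ≤ κ t g) (h1 : ∀ t < m, ∑ g, κ t g = 1) :
    ∀ S : Finset ℕ, S ⊆ Finset.range m →
    (∀ t ∈ S, ∀ v : ℕ → Perm (Fin n), ∑ g, κ t g * E t (Function.update v t g) ≤ p) →
    ∑ u : Fin m → Perm (Fin n), (∏ t : Fin m, κ t (u t)) * ∏ t ∈ S, E t (extP u) ≤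
      p ^ S.card := by
  classical
  induction m with
  | zero =>
    intro S hS _
    have hS0 : S = ∅ := Finset.subset_empty.1 (by simpa using hS)
    subst hS0
    simp
  | succ m ih =>
    intro S hS hcond
    have ih' := ih (fun t ht => h0 t (by omega)) (fun t ht => h1 t (by omega))
    -- rewrite the sum
    have hsum : ∀ S : Finset ℕ, ∑ u : Fin (m + 1) → Perm (Fin n),
        (∏ t : Fin (m + 1), κ t (u t)) * ∏ t ∈ S, E t (extP u) =
        ∑ u : Fin m → Perm (Fin n), ∑ g : Perm (Fin n), (∏ t : Fin m, κ t (u t)) * κ m g *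
          ∏ t ∈ S, E t (extP (Fin.snoc (α := fun _ => Perm (Fin n)) u g)) := by
      intro S
      rw [← (Fin.snocEquiv (fun _ => Perm (Fin n))).sum_comp, Fintype.sum_prod_type,
        Finset.sum_comm]
      refine Finset.sum_congr rfl fun u _ => Finset.sum_congr rfl fun g _ => ?_
      have h2 : (Fin.snocEquiv (fun _ : Fin (m + 1) => Perm (Fin n))) (g, u) =
          Fin.snoc (α := fun _ => Perm (Fin n)) u g := rfl
      rw [h2, Fin.prod_univ_castSucc]
      congr 2
      · refine Finset.prod_congr rfl fun t _ => ?_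
        rw [Fin.snoc_castSucc (α := fun _ => Perm (Fin n))]
        rfl
      · rw [Fin.snoc_last (α := fun _ => Perm (Fin n))]
        rfl
    have hpast : ∀ (u : Fin m → Perm (Fin n)) (g : Perm (Fin n)) (t : ℕ), t < m →
        E t (extP (Fin.snoc (α := fun _ => Perm (Fin n)) u g)) = E t (extP u) := by
      intro u g t ht
      exact hloc t _ _ fun s hs => extP_snoc_lt u g (by omega)
    have hnn : ∀ (u : Fin m → Perm (Fin n)) (S' : Finset ℕ),
        0 ≤ (∏ t : Fin m, κ t (u t)) * ∏ t ∈ S', E t (extP u) := fun u S' =>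
      mul_nonneg (Finset.prod_nonneg fun t _ => h0 t (by omega) _)
        (Finset.prod_nonneg fun t _ => hE0 _ _)
    rw [hsum]
    by_cases hm : m ∈ S
    · obtain ⟨S', hS', rfl⟩ : ∃ S', m ∉ S' ∧ insert m S' = S :=
        ⟨S.erase m, Finset.notMem_erase _ _, Finset.insert_erase hm⟩
      have hS'' : S' ⊆ Finset.range m := by
        intro t ht
        have h3 := Finset.mem_range.1 (hS (Finset.mem_insert_of_mem ht))
        have h4 : t ≠ m := fun h => hS' (h ▸ ht)
        rw [Finset.mem_range]
        omega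
      have h5 : ∀ u : Fin m → Perm (Fin n), ∑ g : Perm (Fin n),
          (∏ t : Fin m, κ t (u t)) * κ m g *
          ∏ t ∈ insert m S', E t (extP (Fin.snoc (α := fun _ => Perm (Fin n)) u g)) ≤
          ((∏ t : Fin m, κ t (u t)) * ∏ t ∈ S', E t (extP u)) * p := by
        intro u
        have h6 : ∀ g : Perm (Fin n), (∏ t : Fin m, κ t (u t)) * κ m g *
            ∏ t ∈ insert m S', E t (extP (Fin.snoc (α := fun _ => Perm (Fin n)) u g)) =
            ((∏ t : Fin m, κ t (u t)) * ∏ t ∈ S', E t (extP u)) *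
              (κ m g * E m (Function.update (extP u) m g)) := by
          intro g
          rw [Finset.prod_insert hS']
          have h7 : ∏ t ∈ S', E t (extP (Fin.snoc (α := fun _ => Perm (Fin n)) u g)) =
              ∏ t ∈ S', E t (extP u) := Finset.prod_congr rfl fun t ht =>
            hpast u g t (Finset.mem_range.1 (hS'' ht))
          have h8 : E m (extP (Fin.snoc (α := fun _ => Perm (Fin n)) u g)) =
              E m (Function.update (extP u) m g) := by
            refine hloc m _ _ fun s hs => ?_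
            rcases Nat.lt_or_eq_of_le hs with hs | rfl
            · rw [extP_snoc_lt u g hs, Function.update_of_ne (by omega)]
            · rw [extP_snoc_eq, Function.update_self]
          rw [h7, h8]
          ring
        rw [Finset.sum_congr rfl fun g _ => h6 g, ← Finset.mul_sum]
        exact mul_le_mul_of_nonneg_left (hcond m hm _) (hnn u S')
      refine (Finset.sum_le_sum fun u _ => h5 u).trans ?_
      rw [← Finset.sum_mul, Finset.card_insert_of_notMem hS', pow_succ]
      exact mul_le_mul_of_nonneg_right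
        (ih' S' hS'' fun t ht => hcond t (Finset.mem_insert_of_mem ht)) hp
    · have hS'' : S ⊆ Finset.range m := by
        intro t ht
        have h3 := Finset.mem_range.1 (hS ht)
        have h4 : t ≠ m := fun h => hm (h ▸ ht)
        rw [Finset.mem_range]
        omega
      have h5 : ∀ u : Fin m → Perm (Fin n), ∑ g : Perm (Fin n),
          (∏ t : Fin m, κ t (u t)) * κ m g *
          ∏ t ∈ S, E t (extP (Fin.snoc (α := fun _ => Perm (Fin n)) u g)) =
          (∏ t : Fin m, κ t (u t)) * ∏ t ∈ S, E t (extP u) := by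
        intro u
        have h6 : ∀ g : Perm (Fin n), (∏ t : Fin m, κ t (u t)) * κ m g *
            ∏ t ∈ S, E t (extP (Fin.snoc (α := fun _ => Perm (Fin n)) u g)) =
            ((∏ t : Fin m, κ t (u t)) * ∏ t ∈ S, E t (extP u)) * κ m g := by
          intro g
          have h7 : ∏ t ∈ S, E t (extP (Fin.snoc (α := fun _ => Perm (Fin n)) u g)) =
              ∏ t ∈ S, E t (extP u) := Finset.prod_congr rfl fun t ht =>
            hpast u g t (Finset.mem_range.1 (hS'' ht))
          rw [h7]
          ring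
        rw [Finset.sum_congr rfl fun g _ => h6 g, ← Finset.mul_sum, h1 m (Nat.lt_succ_self m),
          mul_one]
      rw [Finset.sum_congr rfl fun u _ => h5 u]
      exact ih' S hS'' hcond

/-! ### One step -/

theorem rep_update_le (y : Alt n) (v : ℕ → Perm (Fin n)) (c : Pts n r) (t : ℕ) :
    ∃ (p : Fin (2 * r) ↪ Fin n) (A : Finset (Fin n)), A.card ≤ 2 * r * t ∧
      ∀ g : Perm (Fin n), rep (one1 y) (Function.update v t g) alt1 c t ≤
        (Finset.univ.filter (fun i => g (p i) ∈ A)).card := by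
  classical
  have e : Fin (2 * r) ≃ Fin r × Bool := Fintype.equivOfCardEq (by
    rw [Fintype.card_prod, Fintype.card_fin, Fintype.card_fin, Fintype.card_bool]; ring)
  let At : Finset (Fin n) := (Finset.range t ×ˢ (Finset.univ : Finset (Fin r × Bool))).image
    (fun a => tail (one1 y) v alt1 a.1 (c a.2))
  have hAt : At.card ≤ 2 * r * t := by
    refine Finset.card_image_le.trans ?_
    rw [Finset.card_product, Finset.card_range, Finset.card_univ, Fintype.card_prod,
      Fintype.card_fin, Fintype.card_bool]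
    exact le_of_eq (by ring)
  let A : Finset (Fin n) := if (alt1 t).2 then At.image (y : Perm (Fin n)) else At
  have hA : A.card ≤ 2 * r * t := by
    by_cases h : (alt1 t).2 = true
    · have h1 : A = At.image (y : Perm (Fin n)) := if_pos h
      rw [h1]
      exact Finset.card_image_le.trans hAt
    · have h1 : A = At := if_neg h
      rw [h1]
      exact hAt
  refine ⟨⟨fun i => zpos (one1 y) v alt1 t (c (e i)), ?_⟩, A, hA, ?_⟩
  · intro i j hij
    exact e.injective (c.injective ((zpos (one1 y) v alt1 t).injective hij))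
  · intro g
    unfold rep
    rw [Nat.card_eq_fintype_card, Fintype.card_subtype]
    refine Finset.card_le_card_of_injOn e.symm ?_ (e.symm.injective.injOn)
    intro q hq
    rw [Finset.mem_coe, Finset.mem_filter] at hq
    rw [Finset.mem_coe, Finset.mem_filter]
    refine ⟨Finset.mem_univ _, ?_⟩
    obtain ⟨-, t', ht', q', -, h2⟩ := hq
    have h3 : tail (one1 y) (Function.update v t g) alt1 t' (c q') =
        tail (one1 y) v alt1 t' (c q') := tail_congr _ _ _ _ _ (fun s hs => by
      rw [Function.update_of_ne (by omega)]) _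
    have h4 : tail (one1 y) v alt1 t' (c q') ∈ At :=
      Finset.mem_image.2 ⟨(t', q'), Finset.mem_product.2 ⟨Finset.mem_range.2 ht',
        Finset.mem_univ _⟩, rfl⟩
    rw [← h3, h2] at h4
    have h5 : zpos (one1 y) (Function.update v t g) alt1 t = zpos (one1 y) v alt1 t :=
      zpos_congr _ _ _ _ _ fun s hs => by rw [Function.update_of_ne (by omega)]
    have h6 : (⟨fun i => zpos (one1 y) v alt1 t (c (e i)), fun i j hij =>
        e.injective (c.injective ((zpos (one1 y) v alt1 t).injective hij))⟩ :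
        Fin (2 * r) ↪ Fin n) (e.symm q) = zpos (one1 y) v alt1 t (c q) := by
      show zpos (one1 y) v alt1 t (c (e (e.symm q))) = _
      rw [Equiv.apply_symm_apply]
    rw [h6]
    by_cases h : (alt1 t).2 = true
    · have h1 : A = At.image (y : Perm (Fin n)) := if_pos h
      rw [h1, Finset.mem_image]
      refine ⟨_, h4, ?_⟩
      unfold tail
      rw [if_pos h]
      simp only [zpos]
      rw [h5, Function.update_self]
      unfold lett
      rw [if_pos h]
      simp [one1]
    · have h1 : A = At := if_neg h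
      rw [h1]
      unfold tail at h4
      rw [if_neg h, h5, Function.update_self] at h4
      exact h4

theorem step (hA : S_CTA) {R T : ℕ} (hR : 16 ≤ R) (hRr : R ≤ r)
    (hn : 2 * r * T ≤ n) (κ : ℕ → Perm (Fin n) → ℝ) (y : Alt n) (c : Pts n r) (t : ℕ)
    (ht : t ≤ T) (hκ : Wise (κ t) R) (v : ℕ → Perm (Fin n)) :
    ∑ g, κ t g * (if r ≤ 8 * rep (one1 y) (Function.update v t g) alt1 c t then (1 : ℝ) else 0) ≤
      2 * (64 * r * T / n : ℝ) ^ (R / 16) := by
  classical
  obtain ⟨p, A, hAc, hrep⟩ := rep_update_le y v c t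
  have hAN : A.card ≤ 2 * r * T := hAc.trans (Nat.mul_le_mul_left _ ht)
  have h1 := hA n R (R / 16) (2 * r) ((r + 7) / 8) (2 * r * T) (κ t) hκ (by omega) (by omega)
    (by omega) hn p A hAN
  have h2 : ∑ g, κ t g * (if r ≤ 8 * rep (one1 y) (Function.update v t g) alt1 c t
      then (1 : ℝ) else 0) ≤
      ∑ g ∈ Finset.univ.filter (fun g : Perm (Fin n) =>
        (r + 7) / 8 ≤ (Finset.univ.filter (fun i => g (p i) ∈ A)).card), κ t g := by
    rw [Finset.sum_filter]
    refine Finset.sum_le_sum fun g _ => ?_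
    have h3 := hrep g
    have h4 := hκ.nonneg g
    by_cases h5 : r ≤ 8 * rep (one1 y) (Function.update v t g) alt1 c t
    · rw [if_pos h5, if_pos (show (r + 7) / 8 ≤
        (Finset.univ.filter (fun i => g (p i) ∈ A)).card by omega), mul_one]
    · rw [if_neg h5, mul_zero]
      split_ifs
      · exact h4
      · exact le_rfl
  refine h2.trans (h1.trans ?_)
  refine mul_le_mul_of_nonneg_left (pow_le_pow_left₀ (by positivity) ?_ _) (by norm_num)
  have hr0 : (0 : ℝ) < r := by
    have : 0 < r := by omega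
    exact_mod_cast this
  have hf0 : (0 : ℝ) < (((r + 7) / 8 : ℕ) : ℝ) := by
    have : 0 < (r + 7) / 8 := by omega
    exact_mod_cast this
  have hf1 : (r : ℝ) ≤ 8 * (((r + 7) / 8 : ℕ) : ℝ) := by
    have : r ≤ 8 * ((r + 7) / 8) := by omega
    exact_mod_cast this
  have h6 : (2 * ((2 * r : ℕ) : ℝ) / (((r + 7) / 8 : ℕ) : ℝ)) ≤ 32 := by
    rw [div_le_iff₀ hf0]
    push_cast at hf1 ⊢
    linarith
  have h7 : (0 : ℝ) ≤ ((2 * r * T : ℕ) : ℝ) / n := by positivity
  refine (mul_le_mul_of_nonneg_right h6 h7).trans (le_of_eq ?_)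
  push_cast
  ring

/-! ### Counting -/

theorem many (hB : S_CTB) {T' : ℕ} (hr : 1 ≤ r) (x : Fin K → Alt n)
    (u : ℕ → Perm (Fin n)) (g : ℕ → Letter K) (c : Pts n r)
    (h : Mev x u g (8 * T') c) :
    T' ≤ ((Finset.range (8 * T')).filter (fun t => r ≤ 8 * rep x u g c t)).card := by
  classical
  by_contra hlt
  have h1 := hB n r K (8 * T') x u g c h
  have h2 : ∑ t ∈ Finset.range (8 * T'), 8 * rep x u g c t ≤
      ∑ t ∈ Finset.range (8 * T'), ((if r ≤ 8 * rep x u g c t then 16 * r else 0) + r) := by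
    refine Finset.sum_le_sum fun t _ => ?_
    have h3 := rep_le x u g t c
    split_ifs with h4
    · omega
    · omega
  rw [Finset.sum_add_distrib, ← Finset.sum_filter, Finset.sum_const, Finset.sum_const,
    Finset.card_range, ← Finset.mul_sum, smul_eq_mul, smul_eq_mul] at h2
  set s := ∑ t ∈ Finset.range (8 * T'), rep x u g c t with hs
  set m := ((Finset.range (8 * T')).filter (fun t => r ≤ 8 * rep x u g c t)).card with hm
  have h5 : m + 1 ≤ T' := by omega
  have h6 : (m + 1) * (16 * r) ≤ T' * (16 * r) := Nat.mul_le_mul_right _ h5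
  have h7 : r * (8 * T') = 8 * (T' * r) := by ring
  have h8 : (m + 1) * (16 * r) = m * (16 * r) + 16 * r := by ring
  have h9 : T' * (16 * r) = 16 * (T' * r) := by ring
  have h10 : 8 * T' * r = 8 * (T' * r) := by ring
  omega

end CT74

open CT74 in
/-- Packet CT. -/
theorem ct (hA : S_CTA) (hB : S_CTB) : S_CT := by
  classical
  intro n r R T' hR hRr hT' hn κ hκ y c
  set p : ℝ := 2 * (64 * r * (8 * T') / n : ℝ) ^ (R / 16) with hp
  have hp0 : 0 ≤ p := by positivity
  let E : ℕ → (ℕ → Perm (Fin n)) → ℝ := fun t u =>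
    if r ≤ 8 * rep (one1 y) u alt1 c t then (1 : ℝ) else 0
  have hE0 : ∀ t u, 0 ≤ E t u := by
    intro t u
    show (0 : ℝ) ≤ if r ≤ 8 * rep (one1 y) u alt1 c t then (1 : ℝ) else 0
    split_ifs
    · exact zero_le_one
    · exact le_rfl
  have hEloc : ∀ t (u u' : ℕ → Perm (Fin n)), (∀ s ≤ t, u s = u' s) → E t u = E t u' := by
    intro t u u' h
    show (if r ≤ 8 * rep (one1 y) u alt1 c t then (1 : ℝ) else 0) = _
    rw [rep_congr (one1 y) u u' alt1 t h c]
  have hchain : ∀ S : Finset ℕ, S ⊆ Finset.range (8 * T') →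
      ∑ u : Fin (8 * T' + 1) → Perm (Fin n), (∏ t : Fin (8 * T' + 1), κ t (u t)) *
        ∏ t ∈ S, E t (extP u) ≤ p ^ S.card := by
    intro S hS
    refine chain κ E hE0 hEloc p hp0 (8 * T' + 1) (fun t ht g => (hκ t (by omega)).nonneg g)
      (fun t ht => (hκ t (by omega)).sum) S (hS.trans ?_) ?_
    · intro t ht
      rw [Finset.mem_range] at ht ⊢
      omega
    · intro t ht v
      have ht' := Finset.mem_range.1 (hS ht)
      have h1 := step hA hR hRr hn κ y c t ht'.le (hκ t ht'.le) v
      refine h1.trans (le_of_eq ?_)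
      rw [hp]
      push_cast
      rfl
  have hmain : ∀ u : Fin (8 * T' + 1) → Perm (Fin n),
      (if Mev (one1 y) (extP u) alt1 (8 * T') c then (∏ t : Fin (8 * T' + 1), κ t (u t)) else 0) ≤
      ∑ S ∈ (Finset.range (8 * T')).powersetCard T', (∏ t : Fin (8 * T' + 1), κ t (u t)) *
        ∏ t ∈ S, E t (extP u) := by
    intro u
    have hk0 : 0 ≤ ∏ t : Fin (8 * T' + 1), κ t (u t) :=
      Finset.prod_nonneg fun t _ => (hκ t (by omega)).nonneg _
    have hnn : ∀ S ∈ (Finset.range (8 * T')).powersetCard T',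
        0 ≤ (∏ t : Fin (8 * T' + 1), κ t (u t)) * ∏ t ∈ S, E t (extP u) := fun S _ =>
      mul_nonneg hk0 (Finset.prod_nonneg fun t _ => hE0 _ _)
    split_ifs with hM
    · obtain ⟨S, hS, hSc⟩ := Finset.exists_subset_card_eq (many hB (by omega) _ _ _ c hM)
      have hSm : S ∈ (Finset.range (8 * T')).powersetCard T' :=
        Finset.mem_powersetCard.2 ⟨hS.trans (Finset.filter_subset _ _), hSc⟩
      refine le_trans (le_of_eq ?_) (Finset.single_le_sum hnn hSm)
      have h9 : ∏ t ∈ S, E t (extP u) = 1 := Finset.prod_eq_one fun t ht =>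
        if_pos (Finset.mem_filter.1 (hS ht)).2
      rw [h9, mul_one]
    · exact Finset.sum_nonneg hnn
  calc ∑ u : Fin (8 * T' + 1) → Perm (Fin n), (if Mev (one1 y) (extP u) alt1 (8 * T') c then
        (∏ t : Fin (8 * T' + 1), κ t (u t)) else 0)
      ≤ ∑ u : Fin (8 * T' + 1) → Perm (Fin n),
        ∑ S ∈ (Finset.range (8 * T')).powersetCard T', (∏ t : Fin (8 * T' + 1), κ t (u t)) *
          ∏ t ∈ S, E t (extP u) := Finset.sum_le_sum fun u _ => hmain u
    _ = ∑ S ∈ (Finset.range (8 * T')).powersetCard T', ∑ u : Fin (8 * T' + 1) → Perm (Fin n),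
        (∏ t : Fin (8 * T' + 1), κ t (u t)) * ∏ t ∈ S, E t (extP u) := Finset.sum_comm
    _ ≤ ∑ S ∈ (Finset.range (8 * T')).powersetCard T', p ^ T' := by
        refine Finset.sum_le_sum fun S hS => ?_
        obtain ⟨h1, h2⟩ := Finset.mem_powersetCard.1 hS
        have h3 := hchain S h1
        rw [h2] at h3
        exact h3
    _ ≤ 2 ^ (8 * T') * p ^ T' := by
        rw [Finset.sum_const, Finset.card_powersetCard, Finset.card_range, nsmul_eq_mul]
        refine mul_le_mul_of_nonneg_right ?_ (pow_nonneg hp0 _)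
        have h3 : (8 * T').choose T' ≤ 2 ^ (8 * T') := Nat.choose_le_two_pow _ _
        exact_mod_cast h3

end Pool.Agent.Helper3.AK
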