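import Pool.Agent.Helper6.AK.DGoals

/-! Packet AKD-POW. -/

namespace Pool.Agent.Helper74.AKPow

open Equiv Pool.Agent.Helper15.An Pool.Agent.Helper6.AK

variable {n : ℕ}

/-- On the support of one of its cycles, the powers of `g` are those of the cycle. -/
theorem pow_on {g c : Perm (Fin n)} (hc : c ∈ g.cycleFactorsFinset) {x : Fin n}
    (hx : x ∈ c.support) (m : ℕ) : (g ^ m) x = (c ^ m) x := by
  induction m with
  | zero => rfl
  | succ m ih =>
    have h1 := (Perm.mem_cycleFactorsFinset_iff.1 hc).2 ((c ^ m) x)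
      (Perm.pow_apply_mem_support.2 hx)
    rw [pow_succ', pow_succ', Perm.mul_apply, Perm.mul_apply, ih, h1]

theorem exists_cycle {g : Perm (Fin n)} {M : ℕ} (h : M ∈ g.cycleType) :
    ∃ c ∈ g.cycleFactorsFinset, c.support.card = M := by
  rw [Perm.cycleType_def, Multiset.mem_map] at h
  obtain ⟨c, hc, h2⟩ := h
  exact ⟨c, hc, h2⟩

theorem thm : S_POW := by
  classical
  intro n S u hu
  unfold EcS at hu
  rw [Finset.mem_filter] at hu
  obtain ⟨-, M, s, h1, h2, h3, h4, h5, h6, h7⟩ := hu
  obtain ⟨c, hc, hcM⟩ := exists_cycle h6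
  obtain ⟨d, hd, hds⟩ := exists_cycle h7
  have hc1 := (Perm.mem_cycleFactorsFinset_iff.1 hc).1
  have hd1 := (Perm.mem_cycleFactorsFinset_iff.1 hd).1
  refine ⟨M, by omega, ?_, ?_⟩
  · have hsub : d.support ⊆ ((u : Perm (Fin n)) ^ M).support := by
      intro x hx
      rw [Perm.mem_support, pow_on hd hx]
      intro h8
      apply h5
      have h9 : d ^ M = 1 := hd1.pow_eq_one_iff.2 ⟨x, Perm.mem_support.1 hx, h8⟩
      rw [← hds, ← hd1.orderOf]
      exact orderOf_dvd_of_pow_eq_one h9
    have := Finset.card_le_card hsub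
    omega
  · have hsub : ((u : Perm (Fin n)) ^ M).support ⊆ (c.support)ᶜ := by
      intro x hx
      rw [Finset.mem_compl]
      intro h8
      rw [Perm.mem_support, pow_on hc h8] at hx
      apply hx
      have h9 : c ^ M = 1 := by
        rw [← hcM, ← hc1.orderOf]
        exact pow_orderOf_eq_one c
      rw [h9]
      rfl
    have h10 := Finset.card_le_card hsub
    rw [Finset.card_compl, Fintype.card_fin, hcM] at h10
    omega

end Pool.Agent.Helper74.AKPow
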